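import Pool.Agent.H21.QW.Comb

/-!
# The chain of bodies (row 366, COMB)

`chain`: if the bodies `b j` (the small copies of the `A j`) have small deficits inside `A j` and
`b j` is contained in `C 2 ^ (h j) A (j + 1)`, then the deficit of the fine grid `T` in `A 0` is
small. `bot0`: the regularised variable has no deficit below its own grid.
-/

set_option autoImplicit false

namespace Pool.QC

open Matrix
open Finset Real
open Pool.Agent.H49.Ent Pool.Agent.H32.Dense Pool.STK Pool.KS6 Pool.FAD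

variable {n : ℕ} {Ω ζ : Type} [Fintype Ω] {p : Ω → ℝ}

/-- `Inc` with a scalar. -/
theorem inc_smul_right {a s : ℝ} {V W : Matrix (Fin n) (Fin n) ℝ} (hs : 0 < s)
    (h : Inc a V W) : Inc (s⁻¹ * a) V (s • W) := by
  intro i
  have e : (s • W)⁻¹ * V = s⁻¹ • (W⁻¹ * V) := by
    by_cases hW : W.det = 0
    · have h1 : (s • W).det = 0 := by
        rw [Matrix.det_smul, hW, mul_zero]
      rw [Matrix.nonsing_inv_apply_not_isUnit _ (by rw [h1]; exact not_isUnit_zero),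
        Matrix.nonsing_inv_apply_not_isUnit _ (by rw [hW]; exact not_isUnit_zero)]
      simp
    · have h2 : (s • W)⁻¹ = s⁻¹ • W⁻¹ := by
        refine Matrix.inv_eq_right_inv ?_
        rw [Matrix.smul_mul, Matrix.mul_smul, smul_smul, mul_inv_cancel₀ hs.ne', one_smul]
        exact Matrix.mul_nonsing_inv _ (isUnit_iff_ne_zero.2 hW)
      rw [h2, Matrix.smul_mul]
  rw [e]
  have h3 : ∀ j, |(s⁻¹ • (W⁻¹ * V)) i j| = s⁻¹ * |(W⁻¹ * V) i j| := by
    intro j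
    rw [Matrix.smul_apply, smul_eq_mul, abs_mul, abs_of_pos (inv_pos.2 hs)]
  rw [Finset.sum_congr rfl fun j _ => h3 j, ← Finset.mul_sum]
  exact mul_le_mul_of_nonneg_left (h i) (inv_pos.2 hs).le

theorem inc_smul_left {a s : ℝ} {V W : Matrix (Fin n) (Fin n) ℝ} (hs : 0 ≤ s)
    (h : Inc a V W) : Inc (s * a) (s • V) W := by
  intro i
  have h3 : ∀ j, |(W⁻¹ * (s • V)) i j| = s * |(W⁻¹ * V) i j| := by
    intro j
    rw [Matrix.mul_smul, Matrix.smul_apply, smul_eq_mul, abs_mul, abs_of_nonneg hs]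
  rw [Finset.sum_congr rfl fun j _ => h3 j, ← Finset.mul_sum]
  exact mul_le_mul_of_nonneg_left (h i) hs

theorem inc_refl {V : Matrix (Fin n) (Fin n) ℝ} (hV : V.det ≠ 0) : Inc 1 V V := by
  intro i
  rw [Matrix.nonsing_inv_mul _ (isUnit_iff_ne_zero.2 hV)]
  have : ∑ j, |(1 : Matrix (Fin n) (Fin n) ℝ) i j| = 1 := by
    rw [Finset.sum_eq_single i]
    · simp
    · intro j _ hj
      rw [Matrix.one_apply_ne hj.symm, abs_zero]
    · intro h
      exact absurd (Finset.mem_univ i) h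
  rw [this]

theorem lv_smul {s : ℝ} (hs : 0 < s) {V : Matrix (Fin n) (Fin n) ℝ} (hV : V.det ≠ 0) :
    lv (s • V) = n * Real.log s + lv V := by
  unfold lv
  rw [Matrix.det_smul, abs_mul, Real.log_mul (by
    rw [abs_pow]
    exact (pow_pos (abs_pos.2 hs.ne') _).ne') (abs_pos.2 hV).ne', abs_pow, Real.log_pow,
    abs_of_pos hs, Fintype.card_fin]

/-- The constant of `DF_split`. -/
noncomputable def Cs (n : ℕ) (c : ℝ) : ℝ := n * Real.log (2 * (c + 1) + 1)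

theorem Cs_nonneg (n : ℕ) {c : ℝ} (hc : 0 ≤ c) : 0 ≤ Cs n c :=
  mul_nonneg (Nat.cast_nonneg n) (Real.log_nonneg (by linarith))

/-- **Deficits along a chain of bodies add up.** -/
theorem DF_split (h0 : ∀ ω, 0 ≤ p ω) (h1 : ∑ ω, p ω = 1) {T b V : Ω → Matrix (Fin n) (Fin n) ℝ}
    (x : Ω → Fin n → ℝ) (Z : Ω → ζ) (hdT : Det p Z T) (hdb : Det p Z b) (hdV : Det p Z V)
    (hT : ∀ ω, (T ω).det ≠ 0) (hb : ∀ ω, (b ω).det ≠ 0) {c c' : ℝ}
    (h : ∀ ω, Inc c (T ω) (b ω)) (h' : ∀ ω, Inc c' (b ω) (V ω)) :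
    DF p T V x Z ≤ DF p b V x Z + DF p T b x Z + (Cs n c + Cs n c') := by
  have c1 := CH_inc h0 h1 x Z hdT hdb hT h
  have c2 := CH_inc h0 h1 x Z hdb hdV hb h'
  -- `H(b|V) + H(T|b,V) = H(T,b|V) = H(T|V) + H(b|T,V)`
  have a1 : CH p (fun ω => (cl (T ω) (x ω), cl (b ω) (x ω))) (fun ω => (cl (V ω) (x ω), Z ω)) =
      CH p (fun ω => (cl (b ω) (x ω), cl (T ω) (x ω))) (fun ω => (cl (V ω) (x ω), Z ω)) := by
    refine CH_congr h0 ?_ ?_ ?_ ?_
    · intro ω ω' _ _ h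
      have e1 := Prod.ext_iff.mp (Prod.ext_iff.mp h).1
      exact Prod.ext e1.2 e1.1
    · intro ω ω' _ _ h
      have e1 := Prod.ext_iff.mp (Prod.ext_iff.mp h).1
      exact Prod.ext e1.2 e1.1
    · intro ω ω' _ _ h
      exact h
    · intro ω ω' _ _ h
      exact h
  rw [CH_chain h0, CH_chain h0] at a1
  have a2 : CH p (fun ω => cl (b ω) (x ω)) (fun ω => (cl (T ω) (x ω), (cl (V ω) (x ω), Z ω))) ≤
      CH p (fun ω => cl (b ω) (x ω)) (fun ω => (cl (T ω) (x ω), Z ω)) := by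
    refine CH_mono_cond h0 ?_
    intro ω ω' _ _ h
    have e1 := Prod.ext_iff.mp h
    have e2 := Prod.ext_iff.mp e1.2
    exact Prod.ext e1.1 e2.2
  -- `H(T|b) ≤ H(V|b) + H(T|V,b)`
  have a3 := CH_le_add h0 (fun ω => cl (T ω) (x ω)) (fun ω => cl (V ω) (x ω))
    (fun ω => (cl (b ω) (x ω), Z ω))
  have a4 : CH p (fun ω => cl (T ω) (x ω)) (fun ω => (cl (V ω) (x ω), (cl (b ω) (x ω), Z ω))) ≤
      CH p (fun ω => cl (T ω) (x ω)) (fun ω => (cl (b ω) (x ω), (cl (V ω) (x ω), Z ω))) := by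
    refine CH_mono_cond h0 ?_
    intro ω ω' _ _ h
    have e1 := Prod.ext_iff.mp h
    have e2 := Prod.ext_iff.mp e1.2
    exact Prod.ext e2.1 (Prod.ext e1.1 e2.2)
  have e1 : Ex p (fun ω => lv (V ω) - lv (T ω)) =
      Ex p (fun ω => lv (V ω) - lv (b ω)) + Ex p (fun ω => lv (b ω) - lv (T ω)) := by
    rw [← Ex_add]
    congr 1
    funext ω
    ring
  unfold DF Cs
  rw [e1]
  linarith

/-- The deficit is at most the volume. -/
theorem DF_le_vol (h0 : ∀ ω, 0 ≤ p ω) {T V : Ω → Matrix (Fin n) (Fin n) ℝ}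
    (x : Ω → Fin n → ℝ) (Z : Ω → ζ) :
    DF p T V x Z ≤ Ex p (fun ω => lv (V ω) - lv (T ω)) := by
  have := CH_nonneg h0 (fun ω => cl (T ω) (x ω)) (fun ω => (cl (V ω) (x ω), Z ω))
  unfold DF
  linarith

/-- The loss of one link. -/
noncomputable def Cl (n : ℕ) (C : ℝ) : ℝ := 4 * Cs n C + Cc n C

/-- **One link of the chain.** -/
theorem link (hp : IsLaw p) (x : Ω → Fin n → ℝ) (Z : Ω → ζ) {T A b A' : Matrix (Fin n) (Fin n) ℝ}
    (hT : T.det ≠ 0) (hb : b.det ≠ 0) (hA' : A'.det ≠ 0) {C : ℝ} (hC : 1 ≤ C)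
    {h : ℕ} (hTb : Inc C T b) (hTA' : Inc C T A') (hbA : Inc C b A)
    (hbA' : Inc (C * 2 ^ h) b A') :
    DF p (fun _ => T) (fun _ => A) x Z ≤ DF p (fun _ => b) (fun _ => A) x Z +
      DF p (fun _ => T) (fun _ => A') x Z + n * h * Real.log 2 + Cl n C := by
  have h2 : (0 : ℝ) < 2 ^ h := by positivity
  have h21 : (1 : ℝ) ≤ 2 ^ h := one_le_pow₀ (by norm_num)
  have hC0 : (0 : ℝ) ≤ C := by linarith
  obtain ⟨B, hB⟩ : ∃ B : Matrix (Fin n) (Fin n) ℝ, B = (2 : ℝ) ^ h • A' := ⟨_, rfl⟩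
  have hBd : B.det ≠ 0 := by
    rw [hB, Matrix.det_smul]
    exact mul_ne_zero (pow_ne_zero _ h2.ne') hA'
  have s1 := DF_split (p := p) hp.nonneg hp.sum_one (T := fun _ => T) (b := fun _ => b)
    (V := fun _ => A) x Z (fun _ _ _ _ _ => rfl) (fun _ _ _ _ _ => rfl) (fun _ _ _ _ _ => rfl)
    (fun _ => hT) (fun _ => hb) (fun _ => hTb) (fun _ => hbA)
  have i1 : Inc C b B := by
    have := inc_smul_right h2 hbA'
    rw [← hB] at this
    refine this.mono (le_of_eq ?_)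
    field_simp
  have s2 := DF_mono (p := p) (T := fun _ => T) (W := fun _ => b) (S := fun _ => B) hp.nonneg
    hp.sum_one x Z (fun _ _ _ _ _ => rfl) (fun _ _ _ _ _ => rfl) (fun _ => hb) (fun _ => hBd) hC0
    (fun _ => i1)
  have i2 : Inc C A' B := by
    have := inc_smul_right h2 (inc_refl hA')
    rw [← hB] at this
    refine this.mono ?_
    rw [mul_one]
    exact (inv_le_one_of_one_le₀ h21).trans hC
  have s3 := DF_split (p := p) hp.nonneg hp.sum_one (T := fun _ => T) (b := fun _ => A')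
    (V := fun _ => B) x Z (fun _ _ _ _ _ => rfl) (fun _ _ _ _ _ => rfl) (fun _ _ _ _ _ => rfl)
    (fun _ => hT) (fun _ => hA') (fun _ => hTA') (fun _ => i2)
  have s4 := DF_le_vol (p := p) hp.nonneg (T := fun _ => A') (V := fun _ => B) x Z
  have s5 : Ex p (fun _ => lv B - lv A') = n * h * Real.log 2 := by
    rw [Ex_const hp.sum_one, hB, lv_smul h2 hA', Real.log_pow]
    ring
  rw [s5] at s4
  unfold Cl
  linarith

/-- **The chain.** -/
theorem chain (hp : IsLaw p) (x : Ω → Fin n → ℝ) (Z : Ω → ζ) {T B : Matrix (Fin n) (Fin n) ℝ}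
    (hT : T.det ≠ 0) (hB : B.det ≠ 0) {C : ℝ} (hC : 1 ≤ C) (hTB : Inc C T B) {s' : ℝ}
    (hbot : DF p (fun _ => T) (fun _ => B) x Z ≤ s') : ∀ (M : ℕ)
    (A b : ℕ → Matrix (Fin n) (Fin n) ℝ) (h : ℕ → ℕ) (s : ℕ → ℝ),
    (∀ j ≤ M, (A j).det ≠ 0) → (∀ j ≤ M, (b j).det ≠ 0) → (∀ j ≤ M, Inc C T (A j)) →
    (∀ j ≤ M, Inc C T (b j)) → (∀ j ≤ M, Inc C (b j) (A j)) →
    (∀ j ≤ M, DF p (fun _ => b j) (fun _ => A j) x Z ≤ s j) →
    (∀ j < M, Inc (C * 2 ^ h j) (b j) (A (j + 1))) → Inc (C * 2 ^ h M) (b M) B →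
    DF p (fun _ => T) (fun _ => A 0) x Z ≤ ∑ j ∈ range (M + 1), s j + s' +
      n * (∑ j ∈ range (M + 1), h j : ℕ) * Real.log 2 + (M + 1) * Cl n C := by
  intro M
  induction M with
  | zero =>
    intro A b h s hA hb hTA hTb hbA hs hI hL
    have := link hp x Z hT (hb 0 le_rfl) hB hC (hTb 0 le_rfl) hTB (hbA 0 le_rfl) hL
    have h1 := hs 0 le_rfl
    simp only [zero_add, Finset.sum_range_one, Nat.cast_zero]
    linarith
  | succ M ih =>
    intro A b h s hA hb hTA hTb hbA hs hI hL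
    have k1 := ih (fun j => A (j + 1)) (fun j => b (j + 1)) (fun j => h (j + 1))
      (fun j => s (j + 1)) (fun j hj => hA _ (by omega)) (fun j hj => hb _ (by omega))
      (fun j hj => hTA _ (by omega)) (fun j hj => hTb _ (by omega))
      (fun j hj => hbA _ (by omega)) (fun j hj => hs _ (by omega))
      (fun j hj => hI _ (by omega)) hL
    have k2 := link hp x Z hT (hb 0 (by omega)) (hA 1 (by omega)) hC
      (hTb 0 (by omega)) (hTA 1 (by omega)) (hbA 0 (by omega)) (hI 0 (by omega))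
    have h1 := hs 0 (by omega)
    rw [Finset.sum_range_succ' s, Finset.sum_range_succ' h]
    push_cast at k1 ⊢
    have e : n * (∑ j ∈ range (M + 1), (h (j + 1) : ℝ) + (h 0 : ℝ)) * Real.log 2 =
        n * (∑ j ∈ range (M + 1), (h (j + 1) : ℝ)) * Real.log 2 + n * h 0 * Real.log 2 := by ring
    rw [e]
    linarith

/-- Uniform digits are independent of the first component. -/
theorem CH_digits (hp : IsLaw p) {T : Type} (f : Ω → T) (c Y : ℕ) :
    CH (rg p c Y) (fun ω => ω.2) (fun ω => f ω.1) = c * Y * Real.log 2 := by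
  classical
  have hD : (0 : ℝ) < (2 ^ Y) ^ c := by positivity
  have hcard : (Fintype.card (Fin c → Fin (2 ^ Y)) : ℝ) = (2 ^ Y) ^ c := by
    simp
  have hrg0 : ∀ ω, 0 ≤ rg p c Y ω := fun ω => div_nonneg (hp.nonneg _) hD.le
  have l1 : ∀ w, law (rg p c Y) (fun ω => f ω.1) w = law p f w := by
    intro w
    unfold law rg
    rw [Fintype.sum_prod_type]
    refine Finset.sum_congr rfl fun a _ => ?_
    by_cases h : f a = w
    · simp only [h, if_true, Finset.sum_const, Finset.card_univ, nsmul_eq_mul, hcard]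
      field_simp
    · simp [h]
  have l2 : ∀ d w, law (rg p c Y) (fun ω => (ω.2, f ω.1)) (d, w) = law p f w / (2 ^ Y) ^ c := by
    intro d w
    unfold law rg
    rw [Fintype.sum_prod_type, Finset.sum_div]
    refine Finset.sum_congr rfl fun a _ => ?_
    by_cases h : f a = w
    · simp [h, Prod.ext_iff]
    · simp [h, Prod.ext_iff]
  have hsum : ∑ ω, rg p c Y ω = 1 := by
    unfold rg
    rw [Fintype.sum_prod_type]
    simp only [Finset.sum_const, Finset.card_univ, nsmul_eq_mul, hcard]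
    rw [← hp.sum_one]
    refine Finset.sum_congr rfl fun a _ => ?_
    field_simp
  rw [CH_eq_neg_sum hrg0]
  have e : Ex (rg p c Y) (fun ω => -Real.log (law (rg p c Y) (fun ω => (ω.2, f ω.1)) (ω.2, f ω.1) /
      law (rg p c Y) (fun ω => f ω.1) (f ω.1))) = Ex (rg p c Y) (fun _ => c * Y * Real.log 2) := by
    unfold Ex
    refine Finset.sum_congr rfl fun ω _ => ?_
    rcases (hp.nonneg ω.1).eq_or_lt with h0 | h0
    · have : rg p c Y ω = 0 := by
        unfold rg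
        rw [← h0, zero_div]
      rw [this, zero_mul, zero_mul]
    · have h1 := law_pos hp.nonneg f h0
      have h2 : law p f (f ω.1) / (2 ^ Y) ^ c / law p f (f ω.1) = ((2 ^ Y) ^ c)⁻¹ := by
        field_simp
      show rg p c Y ω * -Real.log (law (rg p c Y) (fun ω => (ω.2, f ω.1)) (ω.2, f ω.1) /
        law (rg p c Y) (fun ω => f ω.1) (f ω.1)) = rg p c Y ω * (c * Y * Real.log 2)
      rw [l1, l2, h2, Real.log_inv, neg_neg, Real.log_pow, Real.log_pow]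
      ring
  rw [e, Ex_const hsum]

theorem rg_law (hp : IsLaw p) (c Y : ℕ) : IsLaw (rg p c Y) := by
  have hD : (0 : ℝ) < (2 ^ Y) ^ c := by positivity
  have hcard : (Fintype.card (Fin c → Fin (2 ^ Y)) : ℝ) = (2 ^ Y) ^ c := by
    simp
  refine ⟨fun ω => div_nonneg (hp.nonneg _) hD.le, ?_⟩
  unfold rg
  rw [Fintype.sum_prod_type]
  simp only [Finset.sum_const, Finset.card_univ, nsmul_eq_mul, hcard]
  rw [← hp.sum_one]
  refine Finset.sum_congr rfl fun a _ => ?_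
  field_simp

theorem det_smul_one {s : ℝ} (hs : 0 < s) : (s • (1 : Matrix (Fin n) (Fin n) ℝ)).det ≠ 0 := by
  rw [Matrix.det_smul, Matrix.det_one, mul_one]
  exact (pow_pos hs _).ne'

theorem inv_smul_one {s : ℝ} (hs : 0 < s) : (s⁻¹ • (1 : Matrix (Fin n) (Fin n) ℝ))⁻¹ = s • 1 := by
  refine Matrix.inv_eq_right_inv ?_
  rw [Matrix.smul_mul, Matrix.mul_smul, smul_smul, inv_mul_cancel₀ hs.ne', one_smul,
    Matrix.one_mul]

theorem cl_smul_one {s : ℝ} (hs : 0 < s) (x : Fin n → ℝ) (j : Fin n) :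
    cl (s⁻¹ • (1 : Matrix (Fin n) (Fin n) ℝ)) x j = ⌊s * x j⌋ := by
  unfold cl
  rw [inv_smul_one hs, Matrix.smul_mulVec, Matrix.one_mulVec, Pi.smul_apply, smul_eq_mul]

theorem lv_smul_one {s : ℝ} (hs : 0 < s) :
    lv (s⁻¹ • (1 : Matrix (Fin n) (Fin n) ℝ)) = -(n * Real.log s) := by
  rw [lv_smul (inv_pos.2 hs) (by rw [Matrix.det_one]; exact one_ne_zero), Real.log_inv]
  unfold lv
  rw [Matrix.det_one, abs_one, Real.log_one]
  ring

/-- **(bot0)** The regularised variable has no deficit below `2 ^ (-X)`. -/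
theorem bot0 (hp : IsLaw p) {c : ℕ} (R : Ω → Fin c → ℤ) (X Y : ℕ) {T : Type} (f : Ω → T) :
    DF (rg p c Y) (fun _ => ((2 : ℝ) ^ (X + Y))⁻¹ • 1) (fun _ => ((2 : ℝ) ^ X)⁻¹ • 1) (xr R X Y)
      (fun ω => f ω.1) ≤ 0 := by
  have hX : (0 : ℝ) < 2 ^ X := by positivity
  have hY : (0 : ℝ) < 2 ^ Y := by positivity
  have hXY : (0 : ℝ) < 2 ^ (X + Y) := by positivity
  have hl := rg_law hp c Y
  -- the cells
  have c1 : ∀ ω j, cl (((2 : ℝ) ^ (X + Y))⁻¹ • (1 : Matrix (Fin c) (Fin c) ℝ)) (xr R X Y ω) j =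
      2 ^ Y * R ω.1 j + (ω.2 j : ℕ) := by
    intro ω j
    rw [cl_smul_one hXY]
    have : (2 : ℝ) ^ (X + Y) * xr R X Y ω j = ((2 ^ Y * R ω.1 j + ((ω.2 j : ℕ) : ℤ) : ℤ) : ℝ) := by
      unfold xr
      push_cast
      rw [pow_add]
      field_simp
    rw [this, Int.floor_intCast]
  have c2 : ∀ ω j, cl (((2 : ℝ) ^ X)⁻¹ • (1 : Matrix (Fin c) (Fin c) ℝ)) (xr R X Y ω) j =
      R ω.1 j := by
    intro ω j
    rw [cl_smul_one hX]
    have e : (2 : ℝ) ^ X * xr R X Y ω j = (R ω.1 j : ℝ) + ((ω.2 j : ℕ) : ℝ) / 2 ^ Y := by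
      unfold xr
      field_simp
    rw [e, Int.floor_eq_iff]
    have h1 : (((ω.2 j : ℕ) : ℝ)) < 2 ^ Y := by exact_mod_cast (ω.2 j).2
    have h2 : ((ω.2 j : ℕ) : ℝ) / 2 ^ Y < 1 := (div_lt_one hY).2 h1
    have h3 : 0 ≤ ((ω.2 j : ℕ) : ℝ) / 2 ^ Y := by positivity
    constructor <;> linarith
  have k1 : CH (rg p c Y) (fun ω => ω.2) (fun ω => (R ω.1, f ω.1)) = c * Y * Real.log 2 :=
    CH_digits hp (fun ω => (R ω, f ω)) c Y
  have k2 : CH (rg p c Y) (fun ω => ω.2) (fun ω => (R ω.1, f ω.1)) ≤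
      CH (rg p c Y) (fun ω => cl (((2 : ℝ) ^ (X + Y))⁻¹ • (1 : Matrix (Fin c) (Fin c) ℝ))
        (xr R X Y ω)) (fun ω => (cl (((2 : ℝ) ^ X)⁻¹ • (1 : Matrix (Fin c) (Fin c) ℝ))
        (xr R X Y ω), f ω.1)) := by
    have e : (fun ω => (cl (((2 : ℝ) ^ X)⁻¹ • (1 : Matrix (Fin c) (Fin c) ℝ))
        (xr R X Y ω), f ω.1)) = fun ω : Ω × (Fin c → Fin (2 ^ Y)) => (R ω.1, f ω.1) := by
      funext ω
      exact Prod.ext (funext fun j => c2 ω j) rfl
    rw [e]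
    refine CH_mono_left hl.nonneg ?_
    intro ω ω' _ _ h
    have h1 := Prod.ext_iff.mp h
    have h2 := (Prod.ext_iff.mp h1.2).1
    funext j
    have h3 := congrFun h1.1 j
    simp only at h3
    rw [c1, c1] at h3
    have h4 := congrFun h2 j
    simp only at h4
    rw [h4] at h3
    have h5 : ((ω.2 j : ℕ) : ℤ) = ((ω'.2 j : ℕ) : ℤ) := by linarith
    exact Fin.ext (by exact_mod_cast h5)
  have k3 : Ex (rg p c Y) (fun _ => lv (((2 : ℝ) ^ X)⁻¹ • (1 : Matrix (Fin c) (Fin c) ℝ)) -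
      lv (((2 : ℝ) ^ (X + Y))⁻¹ • (1 : Matrix (Fin c) (Fin c) ℝ))) = c * Y * Real.log 2 := by
    rw [Ex_const hl.sum_one, lv_smul_one hX, lv_smul_one hXY, Real.log_pow, Real.log_pow]
    push_cast
    ring
  unfold DF
  rw [k3]
  linarith

/-- The fine grid is contained in the bodies. -/
theorem inc_grid {c : ℕ} {A : Matrix (Fin c) (Fin c) ℝ} {r t : ℝ} (hr : 1 ≤ r)
    (ht : 0 < t) (h : ∀ i, ∑ j, |(A⁻¹) i j| * r ≤ t) :
    Inc 1 (t⁻¹ • (1 : Matrix (Fin c) (Fin c) ℝ)) A ∧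
      Inc 1 (t⁻¹ • (1 : Matrix (Fin c) (Fin c) ℝ)) (r⁻¹ • A) := by
  have hr0 : 0 < r := by linarith
  have key : Inc (r⁻¹) (t⁻¹ • (1 : Matrix (Fin c) (Fin c) ℝ)) A := by
    intro i
    have e : ∀ j, |(A⁻¹ * (t⁻¹ • (1 : Matrix (Fin c) (Fin c) ℝ))) i j| = t⁻¹ * |(A⁻¹) i j| := by
      intro j
      rw [Matrix.mul_smul, Matrix.mul_one, Matrix.smul_apply, smul_eq_mul, abs_mul,
        abs_of_pos (inv_pos.2 ht)]
    rw [Finset.sum_congr rfl fun j _ => e j, ← Finset.mul_sum]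
    have h1 := h i
    rw [← Finset.sum_mul] at h1
    rw [inv_mul_le_iff₀ ht, ← div_eq_mul_inv, le_div_iff₀ hr0]
    exact h1
  refine ⟨key.mono (inv_le_one_of_one_le₀ hr), ?_⟩
  have := inc_smul_right (inv_pos.2 hr0) key
  refine this.mono (le_of_eq ?_)
  rw [inv_inv, mul_inv_cancel₀ hr0.ne']

/-- The small copy of a body. -/
theorem inc_small {c : ℕ} {A : Matrix (Fin c) (Fin c) ℝ} (hA : A.det ≠ 0) {r : ℝ} (hr : 1 ≤ r) :
    Inc 1 (r⁻¹ • A) A := by
  have hr0 : 0 < r := by linarith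
  refine (inc_smul_left (inv_pos.2 hr0).le (inc_refl hA)).mono ?_
  rw [mul_one]
  exact inv_le_one_of_one_le₀ hr

theorem det_small {c : ℕ} {A : Matrix (Fin c) (Fin c) ℝ} (hA : A.det ≠ 0) {r : ℝ} (hr : 0 < r) :
    (r⁻¹ • A).det ≠ 0 := by
  rw [Matrix.det_smul]
  exact mul_ne_zero (pow_ne_zero _ (inv_pos.2 hr).ne') hA

end Pool.QC
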